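import Pool.Agent.Work.MP_a6a438_an.Final

/-!
The Steklov spectrum of a compact Riemannian surface with boundary does not determine its genus:
a surface of genus one and a surface of genus two, each with one boundary circle, have the same
Steklov eigenvalues with the same multiplicities.
-/

set_option autoImplicit false

namespace Pool.Agent.Results.MP_a6a438_an.GenusNotAudible

open Pool.Agent.Work.MP_a6a438_an

theorem result : ∃ (M₁ : HandleSurface 1) (M₂ : HandleSurface 2),
    ∀ σ : ℝ, M₁.multiplicity σ = M₂.multiplicity σ :=
  main

end Pool.Agent.Results.MP_a6a438_an.GenusNotAudible
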